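import Pool.Agent.U29.CY.Stm
import Pool.Agent.TH930.GH.Rid

/-! Project CY (helper29), package RAT: products of the numbers `m_j / d` stay away from `1`. -/

set_option autoImplicit false

namespace Pool.Agent.U97.CY

open Finset Pool.Agent.U762.RP Pool.Agent.U29.CY

theorem t_RAT : S_RAT := by
  intro d m r hrel δ hδ
  have hd2 := hrel.two_le
  have hd0 : 0 < d := by omega
  have hdR : (2 : ℝ) ≤ d := by exact_mod_cast hd2
  have hdR0 : (0 : ℝ) < d := by linarith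
  have hlog : 0 < Real.log d := Real.log_pos (by linarith)
  obtain ⟨Mt, hMt⟩ : ∃ Mt : ℤ, Mt = ∏ j ∈ range d, m (j : ℤ) := ⟨_, rfl⟩
  have hmt : ∀ z : ℤ, 0 ≤ z → z < d → m z ∣ Mt := by
    intro z hz0 hzd
    have h1 : z.toNat ∈ range d := by
      rw [mem_range]
      omega
    have h2 := dvd_prod_of_mem (fun j : ℕ => m (j : ℤ)) h1
    rw [hMt]
    rwa [Int.toNat_of_nonneg hz0] at h2
  have hMt0 : Mt ≠ 0 := by
    rw [hMt]
    refine prod_ne_zero_iff.2 fun j hj => ?_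
    rw [mem_range] at hj
    exact (hrel.pos j (by omega) (by exact_mod_cast hj)).ne'
  have hcop : IsCoprime Mt (d : ℤ) := by
    rw [hMt]
    refine IsCoprime.prod_left fun j hj => ?_
    rw [mem_range] at hj
    exact hrel.cop j (by omega) (by exact_mod_cast hj)
  have hdj : Disjoint d.primeFactors Mt.natAbs.primeFactors := by
    have h1 : Nat.Coprime Mt.natAbs d := by
      have := Int.isCoprime_iff_gcd_eq_one.1 hcop
      simpa [Int.gcd] using this
    exact (h1.symm).disjoint_primeFactors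
  obtain ⟨e, he⟩ : ∃ e : ℝ, e = δ / (2 * Real.log d) := ⟨_, rfl⟩
  have he0 : 0 < e := by
    rw [he]
    positivity
  obtain ⟨C0, hC0, hR⟩ := Pool.Agent.TH930.GH.ridout_S d.primeFactors Mt.natAbs.primeFactors
    (fun ℓ h => Nat.prime_of_mem_primeFactors h) (fun ℓ h => Nat.prime_of_mem_primeFactors h)
    hdj he0
  refine ⟨2 * C0 + 2, by positivity, ?_⟩
  intro n hn j hj
  obtain ⟨A, hA⟩ : ∃ A : ℤ, A = (d : ℤ) ^ n := ⟨_, rfl⟩
  obtain ⟨B, hB⟩ : ∃ B : ℤ, B = ∏ i ∈ range n, m (j i) := ⟨_, rfl⟩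
  have hA0 : 0 < A := by
    rw [hA]
    positivity
  have hA2 : 2 ≤ A := by
    rw [hA]
    calc (2 : ℤ) ≤ (d : ℤ) := by exact_mod_cast hd2
      _ = (d : ℤ) ^ 1 := (pow_one _).symm
      _ ≤ (d : ℤ) ^ n := pow_le_pow_right₀ (by omega) hn
  have hB0 : 0 < B := by
    rw [hB]
    exact prod_pos fun i _ => hrel.pos _ (hj i).1 (hj i).2
  have hAB : IsCoprime A B := by
    rw [hA, hB]
    apply IsCoprime.pow_left
    exact IsCoprime.prod_right fun i _ => (hrel.cop _ (hj i).1 (hj i).2).symm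
  have hAR : ((A : ℤ) : ℝ) = (d : ℝ) ^ n := by
    rw [hA]
    push_cast
    rfl
  have hAR0 : (0 : ℝ) < A := by exact_mod_cast hA0
  have hBR0 : (0 : ℝ) < B := by exact_mod_cast hB0
  have hprod : (∏ i ∈ range n, ((m (j i) : ℤ) : ℝ) / (d : ℝ)) = (B : ℝ) / A := by
    rw [prod_div_distrib, prod_const, card_range, hAR, hB]
    push_cast
    rfl
  rw [hprod]
  obtain ⟨D, hD⟩ : ∃ D : ℤ, D = B - A := ⟨_, rfl⟩
  have hDR : (D : ℝ) = B - A := by
    rw [hD]
    push_cast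
    rfl
  have hD0 : D ≠ 0 := by
    intro h0
    have h1 : B = A := by omega
    rw [h1, isCoprime_self] at hAB
    rcases Int.isUnit_iff.1 hAB with h2 | h2 <;> omega
  have hq : (B : ℝ) / A - 1 = D / A := by
    rw [hDR]
    field_simp
  rw [hq, abs_div, abs_of_pos hAR0]
  have hexp : 1 ≤ Real.exp (δ * n) := Real.one_le_exp (by positivity)
  by_cases hc : (A : ℝ) ≤ 2 * |(D : ℝ)|
  · have h1 : 1 / 2 ≤ |(D : ℝ)| / A := by
      rw [le_div_iff₀ hAR0]
      linarith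
    have h2 : (2 * C0 + 2) * Real.exp (δ * n) ≥ 2 := by nlinarith
    nlinarith
  · have hc' : 2 * |(D : ℝ)| < A := not_le.1 hc
    have hDA : |D| < |A| := by
      have h1 : |(D : ℝ)| < |(A : ℝ)| := by
        rw [abs_of_pos hAR0]
        have := abs_nonneg (D : ℝ)
        linarith
      exact_mod_cast h1
    have h1 := hR A B hA0.ne' hB0.ne' (by
        intro ℓ hℓ hdvd
        rw [hA] at hdvd
        have h2 : (ℓ : ℤ) ∣ d := (Nat.prime_iff_prime_int.1 hℓ).dvd_of_dvd_pow hdvd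
        exact Nat.mem_primeFactors.2 ⟨hℓ, by exact_mod_cast h2, hd0.ne'⟩) (by
        intro ℓ hℓ hdvd
        rw [hB] at hdvd
        obtain ⟨i, -, hi⟩ := ((Nat.prime_iff_prime_int.1 hℓ).dvd_finsetProd_iff _).1 hdvd
        have h2 : (ℓ : ℤ) ∣ Mt := hi.trans (hmt _ (hj i).1 (hj i).2)
        exact Nat.mem_primeFactors.2 ⟨hℓ, Int.natCast_dvd.1 h2, Int.natAbs_ne_zero.2 hMt0⟩)
      A D hA0.ne' hD0 hDA dvd_rfl (by rw [hD]; simp)
    rw [abs_of_pos hAR0, abs_of_pos hBR0] at h1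
    have hBA : (A : ℝ) / 2 ≤ B := by
      have h2 := neg_abs_le (D : ℝ)
      rw [hDR] at h2 hc'
      linarith
    have h3 : (A : ℝ) ^ (1 + e) = A * (A : ℝ) ^ e := by
      rw [Real.rpow_add hAR0, Real.rpow_one]
    have h4 : (A : ℝ) ^ e = Real.exp (δ / 2 * n) := by
      rw [hAR, ← Real.rpow_natCast, ← Real.rpow_mul hdR0.le, Real.rpow_def_of_pos hdR0, he]
      congr 1
      field_simp
    have h5 : Real.exp (δ / 2 * n) ≤ Real.exp (δ * n) := by
      apply Real.exp_le_exp.2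
      have : (0 : ℝ) ≤ n := Nat.cast_nonneg _
      nlinarith
    have h6 : (A : ℝ) * (A / 2) ≤ C0 * |(D : ℝ)| * (A * Real.exp (δ * n)) := by
      calc (A : ℝ) * (A / 2) ≤ A * B := mul_le_mul_of_nonneg_left hBA hAR0.le
        _ ≤ C0 * |(D : ℝ)| * (A : ℝ) ^ (1 + e) := h1
        _ = C0 * |(D : ℝ)| * (A * Real.exp (δ / 2 * n)) := by rw [h3, h4]
        _ ≤ C0 * |(D : ℝ)| * (A * Real.exp (δ * n)) := by
            have := abs_nonneg (D : ℝ)
            gcongr
    have h7 : (A : ℝ) ≤ 2 * C0 * |(D : ℝ)| * Real.exp (δ * n) := by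
      have h8 : (A : ℝ) * A ≤ A * (2 * C0 * |(D : ℝ)| * Real.exp (δ * n)) := by nlinarith
      exact le_of_mul_le_mul_left h8 hAR0
    rw [mul_div_assoc', le_div_iff₀ hAR0, one_mul]
    have h9 : 0 ≤ |(D : ℝ)| * Real.exp (δ * n) := by positivity
    nlinarith

end Pool.Agent.U97.CY
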